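import Pool.Agent.Lib.MP_6ccddd_lc.Final

/-!
# MP_6ccddd_lc: for each countable rank bound, Q1 is equivalent to a rooted well-quasi-ordering statement

For every `α < ω₁` the following are equivalent: all minor-closed families of rayless graphs of rank at
most `α` are Borel; such families are not arbitrarily complicated; there is no continuous antichain of
graphs of rank at most `α` indexed by the Cantor space; up to mutual minor relation there are only
countably many graphs of rank at most `α`; for every `k` the countable connected graphs of rank less
than `α` with `k` additional roots are well-quasi-ordered by the rooted minor relation.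
-/

set_option autoImplicit false

open Ordinal

namespace Pool.Agent.Results.MP_6ccddd_lc.LevelEquivalence

open Pool.Agent.Lib.MP_6ccddd_lc

theorem result : ∀ α < ω₁,
    List.TFAE [∀ C : Set (SimpleGraph ℕ), Family α C → IsBorel C, ¬ Universal α,
      ¬ ContAntichain α, CountablyMany α, RootedWqo α] :=
  fun _ hα => tfae hα

end Pool.Agent.Results.MP_6ccddd_lc.LevelEquivalence
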