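import Pool.Agent.Lib.MP_6ccddd_lc.Final

/-!
# MP_6ccddd_lc: Q1 is equivalent to the failure of Thomas' conjecture for countable rayless graphs

A non-Borel minor-closed family of rayless graphs of bounded countable rank exists if and only if the
countable rayless graphs are not well-quasi-ordered by the minor relation. Level by level: if the
countable graphs of rank at most `α` are well-quasi-ordered, then every minor-closed family of rank at
most `α` is Borel; if every such family is Borel, then the countable graphs of rank at most `β` are
well-quasi-ordered for every `β < α`.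
-/

set_option autoImplicit false

open Ordinal

namespace Pool.Agent.Results.MP_6ccddd_lc.ThomasEquivalence

open Pool.Agent.Lib.MP_6ccddd_lc

theorem result :
    ((∃ α < ω₁, ∃ C : Set (SimpleGraph ℕ), Family α C ∧ ¬ IsBorel C) ↔ ¬ WqoRayless) ∧
      ∀ α < ω₁, (Wqo α → ∀ C : Set (SimpleGraph ℕ), Family α C → IsBorel C) ∧
        ((∀ C : Set (SimpleGraph ℕ), Family α C → IsBorel C) → ∀ β < α, Wqo β) := by
  refine ⟨thomas, fun α hα => ⟨fun h C hC => borel_of_hw hα (hw_of_wqo hα h) C hC, fun h β hβ => ?_⟩⟩
  exact wqo_of_hw hβ ((level hα).1 h)

end Pool.Agent.Results.MP_6ccddd_lc.ThomasEquivalence
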